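import Pool.Agent.L7h1.PY.Stm
import Pool.Agent.L7h30.PX.Down

/-!
# DOWN2 of project PY (statement of helper1)
-/

set_option autoImplicit false

namespace Pool.Agent.L7h30.PY

open NumberField Pool.Agent.W289.SL Module IsDedekindDomain Pool.Agent.L7h1.PX Polynomial
open Pool.Agent.L7h30.PX Pool.Agent.L7h1.PY

/-- the ramification index is a power of `p` -/
theorem ram_pow {B H : Type} [Field B] [NumberField B] [Field H] [NumberField H] [Algebra B H]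
    [IsGalois B H] {p n : ℕ} (hp : p.Prime) (hn : finrank B H = p ^ n)
    (w : HeightOneSpectrum (𝓞 H)) (v : HeightOneSpectrum (𝓞 B))
    (hv : v.asIdeal = w.asIdeal.comap (algebraMap (𝓞 B) (𝓞 H))) :
    ∃ j, v.asIdeal.ramificationIdx' w.asIdeal = p ^ j := by
  have : w.asIdeal.LiesOver v.asIdeal := ⟨hv⟩
  have h1 := Ideal.ncard_primesOver_mul_ramificationIdxIn_mul_inertiaDegIn v.asIdeal (𝓞 H)
    (H ≃ₐ[B] H)
  rw [IsGalois.card_aut_eq_finrank B H, hn] at h1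
  have h2 := Ideal.ramificationIdxIn_eq_ramificationIdx v.asIdeal w.asIdeal (H ≃ₐ[B] H)
  have h3 : v.asIdeal.ramificationIdx' w.asIdeal = w.asIdeal.ramificationIdx (𝓞 B) :=
    Ideal.ramificationIdx'_eq_ramificationIdx _ _ v.ne_bot
  have h4 : v.asIdeal.ramificationIdxIn (𝓞 H) ∣ p ^ n :=
    ⟨(v.asIdeal.primesOver (𝓞 H)).ncard * v.asIdeal.inertiaDegIn (𝓞 H), by rw [← h1]; ring⟩
  obtain ⟨j, -, hj⟩ := (Nat.dvd_prime_pow hp).1 h4
  exact ⟨j, by rw [h3, ← h2, hj]⟩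

/-- the valuations at primes with bounded ramification -/
theorem val_ram {B H : Type} [Field B] [NumberField B] [Field H] [NumberField H] [Algebra B H]
    [IsGalois B H] {p n : ℕ} (hp : p.Prime) (hn : finrank B H = p ^ n)
    (w : HeightOneSpectrum (𝓞 H)) (v : HeightOneSpectrum (𝓞 B))
    (hv : v.asIdeal = w.asIdeal.comap (algebraMap (𝓞 B) (𝓞 H))) (m : ℕ)
    (hm : ¬ (w.asIdeal.comap (algebraMap (𝓞 B) (𝓞 H))).map (algebraMap (𝓞 B) (𝓞 H)) ≤
      w.asIdeal ^ (p ^ m + 1)) (k : ℕ) (a : B) (z : H) (u : (𝓞 H)ˣ) (hz : z ≠ 0)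
    (hu : ((u : 𝓞 H) : H) = algebraMap B H a * z ^ p ^ k) : Dvd v (p ^ (k - m)) a := by
  have : w.asIdeal.LiesOver v.asIdeal := ⟨hv⟩
  obtain ⟨j, hj⟩ := ram_pow hp hn w v hv
  have h0 : v.asIdeal.ramificationIdx' w.asIdeal < p ^ m + 1 := by
    apply Ideal.ramificationIdx'_lt
    rw [hv]
    exact hm
  rw [hj] at h0
  have hjm : j ≤ m := (Nat.pow_le_pow_iff_right hp.one_lt).1 (by omega)
  by_cases hkm : k ≤ m
  · rw [Nat.sub_eq_zero_of_le hkm, pow_zero]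
    exact ⟨a, by rw [pow_one]⟩
  have h1 : v.valuation B a ^ p ^ j = w.valuation H (algebraMap B H a) := by
    have := HeightOneSpectrum.valuation_liesOver (K := B) H v w a
    rw [hj] at this
    exact this
  have hu1 : w.valuation H ((u : 𝓞 H) : H) = 1 := by
    rw [w.valuation_of_algebraMap, HeightOneSpectrum.intValuation_eq_one_iff]
    intro hmem
    exact w.isPrime.ne_top (Ideal.eq_top_of_isUnit_mem _ hmem u.isUnit)
  rw [hu, map_mul, map_pow, ← h1] at hu1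
  have hz0 : w.valuation H z ^ p ^ k ≠ 0 := pow_ne_zero _ (by simpa using hz)
  obtain ⟨b, hb⟩ := v.valuation_surjective B ((w.valuation H z)⁻¹ ^ p ^ (m - j))
  refine ⟨b, ?_⟩
  rw [hb, ← pow_mul, ← pow_add]
  have e : m - j + (k - m) = k - j := by omega
  rw [e]
  have h2 : v.valuation B a ^ p ^ j = ((w.valuation H z)⁻¹ ^ p ^ (k - j)) ^ p ^ j := by
    rw [← pow_mul, ← pow_add, Nat.sub_add_cancel (by omega), inv_pow]
    exact eq_inv_of_mul_eq_one_left hu1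
  exact (pow_left_inj₀ zero_le zero_le (pow_pos hp.pos j).ne').1 h2

/-- the statement of helper1 with the sets `Q` and `R` disjoint -/
def S_DOWN2' : Prop := ∀ (p : ℕ) [Fact p.Prime] (t : ℕ), 0 < t → ∃ c₁ : ℕ,
  ∀ (B H : Type) [Field B] [NumberField B] [Field H] [NumberField H] [Algebra B H] [IsGalois B H]
  (n : ℕ), finrank B H = p ^ n → ∀ γ : H ≃ₐ[B] H, (∀ g : H ≃ₐ[B] H, ∃ i : ℕ, g = γ ^ i) →
  ∀ (δ : H ≃+* H) (δB : B ≃+* B), (∀ b, δ (algebraMap B H b) = algebraMap B H (δB b)) →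
  (∀ x, δB^[t] x = x) →
  ∀ (L : ℂ_[p] → ℂ_[p]), IsIwasawaLog p L → ∀ (S : Set (B →+* ℂ_[p])), S.Nonempty →
  (∀ τ ∈ S, ∀ ζ ∈ cl τ, ζ ^ p = 1 → ζ = 1) →
  ∀ (Q R : Finset (HeightOneSpectrum (𝓞 B))) (m : HeightOneSpectrum (𝓞 B) → ℕ),
  (∀ w : HeightOneSpectrum (𝓞 H), Okr p S δB t Q R m w) → (∀ v ∈ R, v ∉ Q) →
  ∀ (k : ℕ) (y : (𝓞 H)ˣ),
  (∃ w : (𝓞 H)ˣ, γ ((y : 𝓞 H) : H) = ((y : 𝓞 H) : H) * ((w : 𝓞 H) : H) ^ p ^ k) →
  (∃ w : (𝓞 H)ˣ, aeval (uE (δ : H →+* H)) (cyclotomic t ℤ) (Additive.ofMul y) =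
    p ^ k • Additive.ofMul w) →
  (∀ ε : ℝ, 0 < ε → ∃ w : (𝓞 H)ˣ, ∀ σ : H →+* ℂ_[p], σ.comp (algebraMap B H) ∈ S →
    ‖L (σ (((y * w ^ p ^ k : (𝓞 H)ˣ) : 𝓞 H) : H))‖ < ε) →
  ∃ (a : Bˣ) (z : Hˣ), ((y : 𝓞 H) : H) = algebraMap B H (a : B) * (z : H) ^ p ^ k ∧
    (∀ v : HeightOneSpectrum (𝓞 B), v ∉ Q → v ∉ R → Dvd v (p ^ k) (a : B)) ∧
    (∀ v : HeightOneSpectrum (𝓞 B), v ∉ R → Dvd v (p ^ (k - c₁)) (a : B)) ∧
    (∀ v ∈ R, Dvd v (p ^ (k - m v)) (a : B)) ∧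
    (∀ τ ∈ S, ∃ b ∈ cl τ, b ^ p ^ k = τ (a : B)) ∧
    ∃ c : Bˣ, aeval (bE (δB : B →+* B)) (cyclotomic t ℤ) (Additive.ofMul a) = p ^ k • Additive.ofMul c

set_option maxHeartbeats 1000000 in
theorem s_DOWN2' : S_DOWN2' := by
  intro p _ t ht
  have hp : Nat.Prime p := Fact.out
  obtain ⟨c₁, hc₁, hVD⟩ := s_VD2 p t ht
  refine ⟨c₁, ?_⟩
  intro B H _ _ _ _ _ _ n hn γ hγ δ δB hδ hδt L hL S hS hζS Q R mm hOk hRQ k y h1 h2 h3
  have hpk : 0 < p ^ k := pow_pos hp.pos k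
  -- embeddings over `τ`
  have hext : ∀ τ : B →+* ℂ_[p], ∃ σ : H →+* ℂ_[p], σ.comp (algebraMap B H) = τ := by
    intro τ
    let _ : Algebra B ℂ_[p] := τ.toAlgebra
    let f : H →ₐ[B] ℂ_[p] := IsAlgClosed.lift
    exact ⟨f.toRingHom, f.comp_algebraMap⟩
  have hdes : ∀ τ ∈ S, ∀ σ : H →+* ℂ_[p], σ.comp (algebraMap B H) = τ →
      (∀ ζ ∈ cl σ, ζ ^ p = 1 → ζ = 1) ∧ ∀ k : ℕ, ∀ b ∈ cl σ,
        b ^ p ^ k ∈ cl τ → b ∈ cl τ := by
    intro τ hτ σ hσ
    have := s_DES p B H n hn σ (by rw [hσ]; exact hζS τ hτ)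
    rw [hσ] at this
    exact this
  have hμ : ∀ ζ : H, ζ ^ p = 1 → ζ = 1 := by
    intro ζ hζ
    obtain ⟨τ, hτ⟩ := hS
    obtain ⟨σ, hσ⟩ := hext τ
    have := (hdes τ hτ σ hσ).1 (σ ζ) (Subfield.le_topologicalClosure _ ⟨ζ, rfl⟩)
      (by rw [← map_pow, hζ, map_one])
    exact σ.injective (by rw [this, map_one])
  have hμk : ∀ ζ : H, ζ ^ p ^ k = 1 → ζ = 1 := fun ζ hζ => pow_one_of hμ k ζ hζ
  have hy0 : ((y : 𝓞 H) : H) ≠ 0 := by simp
  -- all Galois conjugates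
  have hgal : ∀ g : H ≃ₐ[B] H, ∃ v : H, g ((y : 𝓞 H) : H) = ((y : 𝓞 H) : H) * v ^ p ^ k := by
    have hi : ∀ i : ℕ, ∃ v : H, (γ ^ i) ((y : 𝓞 H) : H) = ((y : 𝓞 H) : H) * v ^ p ^ k := by
      intro i
      induction i with
      | zero => exact ⟨1, by simp⟩
      | succ i ih =>
        obtain ⟨v, hv⟩ := ih
        obtain ⟨w, hw⟩ := h1
        refine ⟨((w : 𝓞 H) : H) * γ v, ?_⟩
        rw [pow_succ', AlgEquiv.mul_apply, hv, map_mul, map_pow, hw, mul_pow]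
        ring
    intro g
    obtain ⟨i, rfl⟩ := hγ g
    exact hi i
  obtain ⟨a, z, ha, hz, hyaz⟩ := s_H90 p B H hμ k ((y : 𝓞 H) : H) hy0 hgal
  have haH : algebraMap B H a ≠ 0 := by simpa using ha
  -- local powers
  have hloc : ∀ τ ∈ S, ∃ b ∈ cl τ, b ^ p ^ k = τ a := by
    intro τ hτ
    obtain ⟨σ, hσ⟩ := hext τ
    obtain ⟨hd1, hd2⟩ := hdes τ hτ σ hσ
    obtain ⟨ε, hε, hεu⟩ := s_TINY p H L hL σ hd1 k
    obtain ⟨w, hw⟩ := h3 ε hε
    obtain ⟨b, hb, hby⟩ := hεu (y * w ^ p ^ k) (hw σ (by rw [hσ]; exact hτ))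
    have hσw : σ ((w : 𝓞 H) : H) ≠ 0 := by simp
    have hσz : σ z ≠ 0 := by simpa using hz
    have hmem : ∀ x : H, σ x ∈ cl σ := fun x => Subfield.le_topologicalClosure _ ⟨x, rfl⟩
    have hτa : τ a = σ (algebraMap B H a) := by rw [← hσ]; rfl
    have e1 : σ ((((y * w ^ p ^ k : (𝓞 H)ˣ)) : 𝓞 H) : H) =
        σ (algebraMap B H a) * σ z ^ p ^ k * σ ((w : 𝓞 H) : H) ^ p ^ k := by
      have e0 : ((((y * w ^ p ^ k : (𝓞 H)ˣ)) : 𝓞 H) : H) = ((y : 𝓞 H) : H) * ((w : 𝓞 H) : H) ^ p ^ k := by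
        simp
      rw [e0, map_mul, map_pow, hyaz, map_mul, map_pow]
    set b' := b / (σ z * σ ((w : 𝓞 H) : H)) with hb'
    have hb'mem : b' ∈ cl σ := (cl σ).div_mem hb ((cl σ).mul_mem (hmem _) (hmem _))
    have hb'pow : b' ^ p ^ k = τ a := by
      rw [hb', div_pow, hby, e1, hτa, mul_pow]
      field_simp
    refine ⟨b', hd2 k b' hb'mem ?_, hb'pow⟩
    rw [hb'pow]
    exact Subfield.le_topologicalClosure _ ⟨a, rfl⟩
  -- the eigenvalue condition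
  let A : Bˣ := Units.mk0 a ha
  let Z : Hˣ := Units.mk0 z hz
  have hcond : ∃ c : Bˣ, aeval (bE (δB : B →+* B)) (cyclotomic t ℤ) (Additive.ofMul A) =
      p ^ k • Additive.ofMul c := by
    obtain ⟨w, hw⟩ := h2
    have hν : ∀ x, nuL H (uE (δ : H →+* H) x) = bE (δ : H →+* H) (nuL H x) := by
      intro x
      apply Additive.toMul.injective
      apply Units.ext
      rfl
    have hι : ∀ x, ioL B H (bE (δB : B →+* B) x) = bE (δ : H →+* H) (ioL B H x) := by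
      intro x
      apply Additive.toMul.injective
      apply Units.ext
      exact (hδ _).symm
    have e1 : nuL H (Additive.ofMul y) = ioL B H (Additive.ofMul A) + p ^ k • Additive.ofMul Z := by
      apply Additive.toMul.injective
      apply Units.ext
      change ((y : 𝓞 H) : H) = algebraMap B H a * (((p ^ k • Additive.ofMul Z).toMul : Hˣ) : H)
      rw [toMul_nsmul, toMul_ofMul, Units.val_pow_eq_pow_val]
      exact hyaz
    have e2 := congrArg (nuL H) hw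
    rw [aeval_comm (nuL H) _ _ hν, e1, map_add, map_nsmul, map_nsmul,
      ← aeval_comm (ioL B H) _ _ hι] at e2
    set A' := aeval (bE (δB : B →+* B)) (cyclotomic t ℤ) (Additive.ofMul A) with hA'
    set Z' := aeval (bE (δ : H →+* H)) (cyclotomic t ℤ) (Additive.ofMul Z) with hZ'
    have e3 : ioL B H A' = p ^ k • (nuL H (Additive.ofMul w) - Z') := by
      rw [nsmul_sub]
      exact eq_sub_of_add_eq e2
    set c' : Additive Hˣ := nuL H (Additive.ofMul w) - Z' with hc'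
    have e4 : algebraMap B H ((A'.toMul : Bˣ) : B) = ((c'.toMul : Hˣ) : H) ^ p ^ k := by
      have := congrArg (fun x : Additive Hˣ => ((x.toMul : Hˣ) : H)) e3
      simp only [toMul_nsmul, Units.val_pow_eq_pow_val] at this
      exact this
    have hc'0 : ((c'.toMul : Hˣ) : H) ≠ 0 := Units.ne_zero _
    have hfix : ((c'.toMul : Hˣ) : H) ∈ (⊥ : IntermediateField B H) := by
      rw [IsGalois.mem_bot_iff_fixed]
      intro g
      have e5 : (g ((c'.toMul : Hˣ) : H) / ((c'.toMul : Hˣ) : H)) ^ p ^ k = 1 := by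
        rw [div_pow, ← map_pow, ← e4, AlgEquiv.commutes]
        exact div_self (by rw [e4]; exact pow_ne_zero _ hc'0)
      exact (div_eq_one_iff_eq hc'0).1 (hμk _ e5)
    rw [IntermediateField.mem_bot] at hfix
    obtain ⟨c, hc⟩ := hfix
    have hc0 : c ≠ 0 := by
      rintro rfl
      rw [map_zero] at hc
      exact hc'0 hc.symm
    refine ⟨Units.mk0 c hc0, ?_⟩
    apply Additive.toMul.injective
    apply Units.ext
    rw [toMul_nsmul, toMul_ofMul, Units.val_pow_eq_pow_val, Units.val_mk0]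
    apply (algebraMap B H).injective
    rw [e4, map_pow, hc]
  -- valuations
  have hval : ∀ v : HeightOneSpectrum (𝓞 B), Dvd v (p ^ k) a ∨
      ((v ∈ Q ∨ ¬ p ∣ t) ∧ Dvd v (p ^ (k - c₁)) a) ∨ (v ∈ R ∧ Dvd v (p ^ (k - mm v)) a) := by
    intro v
    obtain ⟨w, hw⟩ := exists_above (H := H) v
    rcases hOk w with (⟨σ, hσS, hσw⟩ | hU | ⟨v', hv', hQ, m, hm, hmt, hst⟩) | ⟨v', hv'R, hv', hram⟩
    · left
      refine s_VS p B (p ^ k) (σ.comp (algebraMap B H)) v ?_ a ha hpk (hloc _ hσS)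
      intro x
      rw [hw, Ideal.mem_comap, hσw]
      rfl
    · left
      exact s_VU B H (p ^ k) w v hw hU a z y ha hz hpk hyaz
    · right; left
      have hvv : v' = v := by
        apply HeightOneSpectrum.ext
        rw [hv', hw]
      rw [hvv] at hQ hst
      refine ⟨hQ, ?_⟩
      obtain ⟨c, hc⟩ := hcond
      exact hVD B k δB m v hδt hm hmt hst A c hc
    · right; right
      have hvv : v' = v := by
        apply HeightOneSpectrum.ext
        rw [hv', hw]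
      rw [hvv] at hv'R hram
      exact ⟨hv'R, val_ram hp hn w v hw (mm v) hram k a z y hz hyaz⟩
  refine ⟨A, Z, hyaz, ?_, ?_, ?_, hloc, hcond⟩
  · intro v hvQ hvR
    rcases hval v with h | ⟨h, h'⟩ | ⟨h, -⟩
    · exact h
    · rcases h with h | h
      · exact absurd h hvQ
      · rw [hc₁ h, Nat.sub_zero] at h'
        exact h'
    · exact absurd h hvR
  · intro v hvR
    rcases hval v with h | ⟨-, h⟩ | ⟨h, -⟩
    · exact dvd_mono hp.pos v k c₁ a h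
    · exact h
    · exact absurd h hvR
  · intro v hvR
    rcases hval v with h | ⟨h, h'⟩ | ⟨-, h⟩
    · exact dvd_mono hp.pos v k (mm v) a h
    · rcases h with h | h
      · exact absurd h (hRQ v hvR)
      · rw [hc₁ h, Nat.sub_zero] at h'
        exact dvd_mono hp.pos v k (mm v) a h'
    · exact h

end Pool.Agent.L7h30.PY
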